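import Pool.Agent.Helper71.UN.StD

/-!
Project UN (MP_d629b1_an), module TTT: the tetrahedral cell with elementary paths.
-/

set_option autoImplicit false

open Set Filter Topology Matrix
open scoped ContDiff ComplexConjugate

noncomputable section

namespace Pool.Agent.Helper21.UN

open Pool.Agent.Helper71.UN
open Pool.Agent.Helper54.TRI (Sx ez FF UU inv4 sU StFF)

theorem sw_left {n : ℕ} (u : Fin n → Fin 4) (a b : Fin n) : sw u a b a = u b := by
  unfold sw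
  rw [Equiv.swap_apply_left]

theorem sw_right {n : ℕ} (u : Fin n → Fin 4) (a b : Fin n) : sw u a b b = u a := by
  unfold sw
  rw [Equiv.swap_apply_right]

theorem sw_ne {n : ℕ} (u : Fin n → Fin 4) (a b x : Fin n) (ha : x ≠ a) (hb : x ≠ b) :
    sw u a b x = u x := by
  unfold sw
  rw [Equiv.swap_apply_of_ne_of_ne ha hb]

theorem self_sw {n : ℕ} {al : Fin 4 → Fin n → Bool} {u : Fin n → Fin 4} {a b : Fin n}
    (h : Adm al u a b) (c : Fin n) : al (sw u a b c) c = true := by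
  by_cases hca : c = a
  · subst hca
    rw [sw_left]
    exact h.ba
  · by_cases hcb : c = b
    · subst hcb
      rw [sw_right]
      exact h.ab
    · rw [sw_ne u a b c hca hcb]
      exact h.self c

theorem hTTT (hL : StLWA) (hS : StSQR) (hT : StTTA) : StTTT := by
  intro n al u w L ς hw hLi hu hself hal hς u₁ u₂ u₃ u₄ u₅ h1 h2 h3 h4 h5
  have wn : ∀ i j : Fin 4, i ≠ j → w i ≠ w j := fun i j hij h => hij (hw h)
  -- values of u
  have v0 : u (w 0) = L 1 := hu 0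
  have v1 : u (w 1) = L 0 := hu 1
  have v2 : u (w 2) = L 3 := hu 2
  have v3 : u (w 3) = L 2 := hu 3
  have a1 : Adm al u (w 2) (w 0) := by
    refine ⟨wn _ _ (by decide), hself, ?_, ?_⟩
    · rw [v2]; exact hal _ _ (by decide)
    · rw [v0]; exact hal _ _ (by decide)
  have a2 : Adm al u (w 1) (w 3) := by
    refine ⟨wn _ _ (by decide), hself, ?_, ?_⟩
    · rw [v1]; exact hal _ _ (by decide)
    · rw [v3]; exact hal _ _ (by decide)
  -- u₁
  have p0 : u₁ (w 0) = L 3 := by rw [h1, sw_right, v2]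
  have p1 : u₁ (w 1) = L 0 := by
    rw [h1, sw_ne _ _ _ _ (wn _ _ (by decide)) (wn _ _ (by decide)), v1]
  have p2 : u₁ (w 2) = L 1 := by rw [h1, sw_left, v0]
  have p3 : u₁ (w 3) = L 2 := by
    rw [h1, sw_ne _ _ _ _ (wn _ _ (by decide)) (wn _ _ (by decide)), v3]
  have s1 : ∀ c, al (u₁ c) c = true := by
    intro c
    rw [h1]
    exact self_sw a1 c
  have a3 : Adm al u₁ (w 1) (w 3) := by
    refine ⟨wn _ _ (by decide), s1, ?_, ?_⟩
    · rw [p1]; exact hal _ _ (by decide)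
    · rw [p3]; exact hal _ _ (by decide)
  -- u₂
  have q0 : u₂ (w 0) = L 3 := by
    rw [h2, sw_ne _ _ _ _ (wn _ _ (by decide)) (wn _ _ (by decide)), p0]
  have q1 : u₂ (w 1) = L 2 := by rw [h2, sw_left, p3]
  have q2 : u₂ (w 2) = L 1 := by
    rw [h2, sw_ne _ _ _ _ (wn _ _ (by decide)) (wn _ _ (by decide)), p2]
  have q3 : u₂ (w 3) = L 0 := by rw [h2, sw_right, p1]
  have s2 : ∀ c, al (u₂ c) c = true := by
    intro c
    rw [h2]
    exact self_sw a3 c
  have a4 : Adm al u₂ (w 3) (w 2) := by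
    refine ⟨wn _ _ (by decide), s2, ?_, ?_⟩
    · rw [q3]; exact hal _ _ (by decide)
    · rw [q2]; exact hal _ _ (by decide)
  have a5 : Adm al u₂ (w 1) (w 0) := by
    refine ⟨wn _ _ (by decide), s2, ?_, ?_⟩
    · rw [q1]; exact hal _ _ (by decide)
    · rw [q0]; exact hal _ _ (by decide)
  -- u₃
  have r0 : u₃ (w 0) = L 3 := by
    rw [h3, sw_ne _ _ _ _ (wn _ _ (by decide)) (wn _ _ (by decide)), q0]
  have r1 : u₃ (w 1) = L 2 := by
    rw [h3, sw_ne _ _ _ _ (wn _ _ (by decide)) (wn _ _ (by decide)), q1]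
  have r2 : u₃ (w 2) = L 0 := by rw [h3, sw_right, q3]
  have r3 : u₃ (w 3) = L 1 := by rw [h3, sw_left, q2]
  have s3 : ∀ c, al (u₃ c) c = true := by
    intro c
    rw [h3]
    exact self_sw a4 c
  have a6 : Adm al u₃ (w 1) (w 0) := by
    refine ⟨wn _ _ (by decide), s3, ?_, ?_⟩
    · rw [r1]; exact hal _ _ (by decide)
    · rw [r0]; exact hal _ _ (by decide)
  -- u₄
  have t0 : u₄ (w 0) = L 2 := by rw [h4, sw_right, r1]
  have t1 : u₄ (w 1) = L 3 := by rw [h4, sw_left, r0]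
  have t2 : u₄ (w 2) = L 0 := by
    rw [h4, sw_ne _ _ _ _ (wn _ _ (by decide)) (wn _ _ (by decide)), r2]
  have t3 : u₄ (w 3) = L 1 := by
    rw [h4, sw_ne _ _ _ _ (wn _ _ (by decide)) (wn _ _ (by decide)), r3]
  have s4 : ∀ c, al (u₄ c) c = true := by
    intro c
    rw [h4]
    exact self_sw a6 c
  have a7 : Adm al u₄ (w 2) (w 1) := by
    refine ⟨wn _ _ (by decide), s4, ?_, ?_⟩
    · rw [t2]; exact hal _ _ (by decide)
    · rw [t1]; exact hal _ _ (by decide)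
  have a8 : Adm al u₄ (w 3) (w 0) := by
    refine ⟨wn _ _ (by decide), s4, ?_, ?_⟩
    · rw [t3]; exact hal _ _ (by decide)
    · rw [t0]; exact hal _ _ (by decide)
  have sg2 : ∀ i j, (ς i * ς j) * (ς i * ς j) = 1 := by
    intro i j
    have e1 := hς i
    have e2 := hς j
    calc (ς i * ς j) * (ς i * ς j) = (ς i * ς i) * (ς j * ς j) := by ring
      _ = 1 := by rw [e1, e2, one_mul]
  have e2 : u₂ = sw (sw u (w 2) (w 0)) (w 1) (w 3) := by rw [h2, h1]
  have e4 : u₄ = sw (sw u₂ (w 3) (w 2)) (w 1) (w 0) := by rw [h4, h3]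
  obtain ⟨T1, T2⟩ := hT n al u w L ς hw hLi hu hself hal hς u₂ u₄ e2 e4
  obtain ⟨-, -, C1⟩ := hS n al u (w 2) (w 0) (w 1) (w 3) (ς 2 * ς 0) (ς 1 * ς 3) a1 a2
    (wn _ _ (by decide)) (wn _ _ (by decide)) (wn _ _ (by decide)) (wn _ _ (by decide))
    (sg2 2 0) (sg2 1 3)
  obtain ⟨-, -, C2⟩ := hS n al u₂ (w 3) (w 2) (w 1) (w 0) (ς 3 * ς 2) (ς 1 * ς 0) a4 a5
    (wn _ _ (by decide)) (wn _ _ (by decide)) (wn _ _ (by decide)) (wn _ _ (by decide))
    (sg2 3 2) (sg2 1 0)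
  obtain ⟨-, -, C3⟩ := hS n al u₄ (w 2) (w 1) (w 3) (w 0) (ς 2 * ς 1) (ς 3 * ς 0) a7 a8
    (wn _ _ (by decide)) (wn _ _ (by decide)) (wn _ _ (by decide)) (wn _ _ (by decide))
    (sg2 2 1) (sg2 3 0)
  rw [← e2, ← h1] at C1
  rw [← e4, ← h3] at C2
  rw [T1, ← h5] at C3
  refine ⟨by rw [h5]; exact T1, ?_⟩
  have D1 := (hL n al (pu u₂) (pu u₄) (pu u) _ _ (fun _ => pu u) _ _).2.2.2.2.2.1 C2 C3
  have D2 := (hL n al (pu u) (pu u₂) (pu u) _ _ (fun _ => pu u) _ _).2.2.2.2.2.1 C1 D1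
  exact (hL n al (pu u) (pu u) (pu u) _ _ _ (fun _ => pu u) (fun _ => pu u)).2.2.1 D2 T2

end Pool.Agent.Helper21.UN
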